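import Mathlib
import Pool.Agent.Helper58.FX.St.Stubs

set_option autoImplicit false
open MeasureTheory Filter Topology
open scoped InnerProductSpace ComplexConjugate ENNReal

/-! Project FX, piece FX-12: approximate ergodicity of the dilates. -/

namespace Helper26.FX
open Helper58.FX

variable {μ : Measure Tor}

/-- image measure under multiplication by an integer -/
theorem exists_dil [IsProbabilityMeasure μ] (h2 : MeasurePreserving (T 2) μ μ)
    (h3 : MeasurePreserving (T 3) μ μ) (c : ℤ) :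
    ∃ ν : Measure Tor, IsProbabilityMeasure ν ∧ (∀ n, ft ν n = ft μ (n * c)) ∧
      MeasurePreserving (T 2) ν ν ∧ MeasurePreserving (T 3) ν ν := by
  have hF : Measurable (fun x : Tor => c • x) := (continuous_zsmul c).measurable
  have hmp : ∀ k : ℕ, MeasurePreserving (T k) μ μ →
      MeasurePreserving (T k) (μ.map (fun x : Tor => c • x)) (μ.map (fun x : Tor => c • x)) := by
    intro k hk
    refine ⟨hk.measurable, ?_⟩
    rw [Measure.map_map hk.measurable hF]
    have e1 : (T k) ∘ (fun x : Tor => c • x) = (fun x : Tor => c • x) ∘ (T k) := by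
      funext x
      change k • (c • x) = c • (k • x)
      rw [smul_comm]
    rw [e1, ← Measure.map_map hF hk.measurable, hk.map_eq]
  refine ⟨μ.map (fun x : Tor => c • x), Measure.isProbabilityMeasure_map hF.aemeasurable, ?_,
    hmp 2 h2, hmp 3 h3⟩
  intro n
  unfold ft
  rw [integral_map hF.aemeasurable (fourier n).continuous.aestronglyMeasurable]
  refine integral_congr_ae (Filter.Eventually.of_forall fun x => ?_)
  change (fourier n (c • x) : ℂ) = fourier (n * c) x
  rw [fourier_apply, fourier_apply, mul_smul]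

theorem mean_ft [IsProbabilityMeasure μ] (h2 : MeasurePreserving (T 2) μ μ)
    (h3 : MeasurePreserving (T 3) μ μ) (hE : Erg (ft μ)) (l : ℤ) :
    Tendsto (fun N : ℕ => (∑ s ∈ box N, ft μ (l * (sc s - 1))) / (N : ℂ) ^ 2) atTop
      (𝓝 ((‖ft μ l‖ ^ 2 : ℝ) : ℂ)) := by
  obtain ⟨E, hE1, hE2, -, -⟩ := St.me h2 h3 l
  have := tendsto_nhds_unique hE1 (hE l)
  rw [← this]
  exact hE2

theorem approx_erg [IsProbabilityMeasure μ] (h2 : MeasurePreserving (T 2) μ μ)
    (h3 : MeasurePreserving (T 3) μ μ) (hE : Erg (ft μ)) (n : ℤ) {η ε : ℝ} (hη : 0 < η)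
    (hε : 0 < ε) :
    ∃ M : ℕ, 1 ≤ M ∧ Up {s | η < (Helper17.LevelSets.EE
      (fun j => ft μ (n * j * (sc s - 1))) M).re - ‖ft μ (n * (sc s - 1))‖ ^ 2} ε := by
  obtain ⟨ρ, hρ, hρft, hρ2, hρ3⟩ := St.exists_square h2 h3
  obtain ⟨E, hE1, hE2, -, -⟩ := St.me hρ2 hρ3 n
  -- choice of `M`
  have hre : Tendsto (fun L => (Helper17.LevelSets.EE (fun j => ft ρ (n * j)) L).re) atTop
      (𝓝 E) := by
    have := (Complex.continuous_re.tendsto (E : ℂ)).comp hE1
    rw [Complex.ofReal_re] at this
    exact this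
  have hεη : 0 < η * ε := mul_pos hη hε
  obtain ⟨M, hM1, hM⟩ := ((eventually_ge_atTop 1).and
    (hre.eventually (gt_mem_nhds (show E < E + η * ε by linarith)))).exists
  refine ⟨M, hM1, ?_⟩
  set D : ℕ × ℕ → ℝ := fun s => (Helper17.LevelSets.EE
      (fun j => ft μ (n * j * (sc s - 1))) M).re - ‖ft μ (n * (sc s - 1))‖ ^ 2 with hD
  -- nonnegativity
  have hD0 : ∀ s, 0 ≤ D s := by
    intro s
    obtain ⟨ν, hν, hνft, hν2, hν3⟩ := exists_dil h2 h3 (sc s - 1)
    obtain ⟨E', -, -, h4, h5⟩ := St.me hν2 hν3 n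
    have h6 := h5 M hM1
    rw [hνft] at h4
    have e1 : (fun j => ft ν (n * j)) = fun j => ft μ (n * j * (sc s - 1)) := by
      funext j
      rw [hνft]
    rw [e1] at h6
    rw [hD]
    simp only
    linarith
  -- the mean of the first term
  have hlim1 : Tendsto (fun N : ℕ => (∑ s ∈ box N, Helper17.LevelSets.EE
      (fun j => ft μ (n * j * (sc s - 1))) M) / (N : ℂ) ^ 2) atTop
      (𝓝 (Helper17.LevelSets.EE (fun j => ft ρ (n * j)) M)) := by
    have e1 : (fun N : ℕ => (∑ s ∈ box N, Helper17.LevelSets.EE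
        (fun j => ft μ (n * j * (sc s - 1))) M) / (N : ℂ) ^ 2) =
        fun N : ℕ => (1 / (M : ℂ) ^ 4) * ∑ q : (Fin M × Fin M) × (Fin M × Fin M),
          (∑ s ∈ box N, ft μ (n * (Helper17.LevelSets.uu q.1 - Helper17.LevelSets.uu q.2) *
            (sc s - 1))) / (N : ℂ) ^ 2 := by
      funext N
      unfold Helper17.LevelSets.EE
      rw [← Finset.mul_sum, mul_div_assoc, Finset.sum_comm, Finset.sum_div]
    rw [e1]
    unfold Helper17.LevelSets.EE
    refine Tendsto.const_mul _ (tendsto_finsetSum _ fun q _ => ?_)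
    simp only [hρft]
    exact mean_ft h2 h3 hE _
  have hlim : Tendsto (mean D) atTop
      (𝓝 ((Helper17.LevelSets.EE (fun j => ft ρ (n * j)) M).re - E)) := by
    have h4 := (Complex.continuous_re.tendsto _).comp (hlim1.sub hE2)
    have e2 : mean D = Complex.re ∘ fun N : ℕ => (∑ s ∈ box N, Helper17.LevelSets.EE
        (fun j => ft μ (n * j * (sc s - 1))) M) / (N : ℂ) ^ 2 -
        (∑ s ∈ box N, ft ρ (n * (sc s - 1))) / (N : ℂ) ^ 2 := by
      funext N
      unfold mean
      simp only [Function.comp_apply]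
      have e3 : ((N : ℂ) ^ 2) = (((N : ℝ) ^ 2 : ℝ) : ℂ) := by push_cast; rfl
      rw [← sub_div, e3, Complex.div_ofReal_re, ← Finset.sum_sub_distrib, Complex.re_sum]
      congr 1
      refine Finset.sum_congr rfl fun s _ => ?_
      rw [hρft, Complex.sub_re, Complex.ofReal_re]
    rw [e2]
    simpa using h4
  have hev := hlim.eventually (gt_mem_nhds
    (show (Helper17.LevelSets.EE (fun j => ft ρ (n * j)) M).re - E < η * ε by linarith))
  unfold Up
  filter_upwards [hev] with N hN
  -- Markov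
  have hmarkov : η * Helper58.FX.cnt {s | η < D s} N ≤ ∑ s ∈ box N, D s := by
    classical
    unfold Helper58.FX.cnt
    calc η * (((box N).filter (fun s => s ∈ {s | η < D s})).card : ℝ)
        = ∑ s ∈ (box N).filter (fun s => s ∈ {s | η < D s}), η := by
          rw [Finset.sum_const, nsmul_eq_mul, mul_comm]
      _ ≤ ∑ s ∈ (box N).filter (fun s => s ∈ {s | η < D s}), D s := by
          refine Finset.sum_le_sum fun s hs => ?_
          have := (Finset.mem_filter.1 hs).2
          exact le_of_lt this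
      _ ≤ ∑ s ∈ box N, D s :=
          Finset.sum_le_sum_of_subset_of_nonneg (Finset.filter_subset _ _) fun s _ _ => hD0 s
  rcases Nat.eq_zero_or_pos N with h0 | h0
  · subst h0
    simp [Helper58.FX.cnt, box]
  · have hN2 : (0 : ℝ) < (N : ℝ) ^ 2 := by positivity
    have h5 : ∑ s ∈ box N, D s = mean D N * (N : ℝ) ^ 2 := by
      unfold mean
      field_simp
    rw [h5] at hmarkov
    have h6 : η * Helper58.FX.cnt {s | η < D s} N ≤ η * (ε * (N : ℝ) ^ 2) := by
      calc η * Helper58.FX.cnt {s | η < D s} N ≤ mean D N * (N : ℝ) ^ 2 := hmarkov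
        _ ≤ (η * ε) * (N : ℝ) ^ 2 := mul_le_mul_of_nonneg_right hN.le hN2.le
        _ = η * (ε * (N : ℝ) ^ 2) := by ring
    exact le_of_mul_le_mul_left h6 hη

end Helper26.FX
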